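import Pool.Agent.T9h73.TN.Hyp
set_option autoImplicit false

/-!
The curves `y² = (x ^ (g + 1) + a)² - 4`, where `a² - 4 = s²` with a unit `s`.
-/

namespace Pool.Agent.T9h73.TN

open Polynomial

theorem int_coeff_sum {K : Type*} [Field K] {c d : K} (hc : IsIntegral ℤ c) (hd : IsIntegral ℤ d)
    (n i : ℕ) : IsIntegral ℤ ((C c * X ^ n + C d : K[X]).coeff i) := by
  rw [coeff_add, coeff_C_mul, coeff_X_pow, coeff_C]
  refine IsIntegral.add (IsIntegral.mul hc ?_) ?_
  · split_ifs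
    · exact isIntegral_one
    · exact isIntegral_zero
  · split_ifs
    · exact hd
    · exact isIntegral_zero

theorem family {K : Type*} [Field K] [CharZero K] (g : ℕ) {a s : K} (ha : IsIntegral ℤ a)
    (hs : IsIntegral ℤ s) (hs' : IsIntegral ℤ s⁻¹) (hs0 : s ≠ 0) (has : s ^ 2 = a ^ 2 - 4) :
    TwoPairs g (g + 1) ((X ^ (g + 1) + C a) ^ 2 - C 4) (C (1 / 2) * (X ^ (g + 1) + C a))
      (C (1 / 2)) (C (1 / 2) * (C a * X ^ (g + 1) + C (s ^ 2))) (C (1 / 2) * C s) := by
  have ha4 : a ^ 2 ≠ 4 := by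
    intro h
    rw [h, sub_self] at has
    exact hs0 (pow_eq_zero_iff two_ne_zero |>.1 has)
  have hC4 : (C 4 : K[X]) = C 2 * C 2 := by
    rw [← C_mul]
    norm_num
  have h2 : (C (1 / 2) : K[X]) * C 2 = 1 := by
    rw [← C_mul]
    norm_num
  have h2' : (C 2 : K[X]) * C (1 / 2) = 1 := by rw [mul_comm, h2]
  have hCs : (C s : K[X]) ^ 2 = C a ^ 2 - C 4 := by
    rw [← C_pow, ← C_pow, ← C_sub, has]
  have eP : C 2 * (C (1 / 2) * (X ^ (g + 1) + C a)) = C 1 * X ^ (g + 1) + C a := by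
    rw [← mul_assoc, h2', one_mul, C_1, one_mul]
  have eA : C 2 * (C (1 / 2) * (C a * X ^ (g + 1) + C (s ^ 2))) =
      C a * X ^ (g + 1) + C (s ^ 2) := by
    rw [← mul_assoc, h2', one_mul]
  refine ⟨?_, ?_, ?_, ?_, ?_, Nat.succ_pos g, ?_, ?_, ?_, ?_, ?_, ?_⟩
  · refine Separable.squarefree ?_
    unfold Separable
    have h3 : derivative ((X ^ (g + 1) + C a) ^ 2 - C 4 : K[X]) =
        C (2 * ((g : K) + 1)) * (X ^ g * (X ^ (g + 1) + C a)) := by
      have h4 : (C ((2 : ℕ) : K) : K[X]) = C 2 := by norm_num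
      rw [derivative_sub, derivative_C, derivative_pow, derivative_add, derivative_C,
        derivative_X_pow, h4, C_mul]
      simp only [Nat.add_one_sub_one, pow_one]
      push_cast
      rw [C_add, C_1, map_natCast]
      ring
    rw [h3]
    have h5 : IsUnit (C (2 * ((g : K) + 1)) : K[X]) := by
      refine isUnit_C.2 (isUnit_iff_ne_zero.2 (mul_ne_zero two_ne_zero ?_))
      exact_mod_cast Nat.succ_ne_zero g
    refine (isCoprime_mul_unit_left_right h5 _ _).2 (IsCoprime.mul_right ?_ ?_)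
    · refine IsCoprime.pow_right ?_
      have h6 : IsCoprime (X - C 0 : K[X]) ((X ^ (g + 1) + C a) ^ 2 - C 4) := by
        refine ((irreducible_X_sub_C (0 : K)).coprime_iff_not_dvd).2 fun h7 => ?_
        have h8 := dvd_iff_isRoot.1 h7
        rw [IsRoot.def] at h8
        simp only [eval_sub, eval_pow, eval_add, eval_X, eval_C, ne_eq, Nat.add_eq_zero_iff,
          one_ne_zero, and_false, not_false_eq_true, zero_pow, zero_add] at h8
        exact ha4 (sub_eq_zero.1 h8)
      rw [C_0, sub_zero] at h6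
      exact h6.symm
    · refine ⟨-(C (1 / 2) * C (1 / 2)), C (1 / 2) * C (1 / 2) * (X ^ (g + 1) + C a), ?_⟩
      rw [hC4]
      linear_combination (C (1 / 2) * C 2 + 1) * h2
  · have h3 : ((X ^ (g + 1) + C a) ^ 2 - C 4 : K[X]).natDegree =
        ((X ^ (g + 1) + C a) ^ 2 : K[X]).natDegree := natDegree_sub_C
    rw [h3, natDegree_pow, natDegree_X_pow_add_C]
    ring
  · rw [hC4]
    linear_combination (C (1 / 2) * C 2 + 1) * h2
  · rw [natDegree_C_mul (by norm_num), natDegree_X_pow_add_C]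
    omega
  · rw [show (X : K[X]) ^ (2 * (g + 1)) = (X ^ (g + 1)) ^ 2 by rw [← pow_mul, mul_comm], hC4,
      C_pow]
    rw [hC4] at hCs
    linear_combination C (1 / 2) ^ 2 * (C s ^ 2 - (X ^ (g + 1)) ^ 2) * hCs +
      (C (1 / 2) * C 2 + 1) * (X ^ (g + 1)) ^ 2 * h2
  · refine (natDegree_C_mul_le _ _).trans ?_
    rw [natDegree_add_C]
    exact natDegree_C_mul_X_pow_le _ _
  · simp only [eval_mul, eval_add, eval_pow, eval_X, eval_C, ne_eq, Nat.add_eq_zero_iff,
      one_ne_zero, and_false, not_false_eq_true, zero_pow, mul_zero, zero_add]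
    refine mul_ne_zero (by norm_num) (pow_ne_zero 2 hs0)
  · intro i
    rw [eP]
    exact int_coeff_sum isIntegral_one ha _ _
  · rw [eP, C_1, one_mul, (monic_X_pow_add_C a (Nat.succ_ne_zero g)).leadingCoeff, inv_one]
    exact isIntegral_one
  · intro i
    rw [eA]
    exact int_coeff_sum ha (hs.pow 2) _ _
  · rw [eA, coeff_add, coeff_C_mul, coeff_X_pow, if_neg (Nat.succ_ne_zero g).symm, mul_zero,
      zero_add, coeff_C_zero, ← inv_pow]
    exact hs'.pow 2

end Pool.Agent.T9h73.TN
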