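import Pool.Agent.T9h73.TN.Fld
set_option autoImplicit false

/-!
The symbols over a number field.
-/

namespace Pool.Agent.T9h73.TN

open Polynomial

open Pool.Agent.T9h73.TP (Sp sp_root off_root core Un rhoU zU sy reg_sy)

open Pool.Agent.TH826.MK (KQ symb Torus Unramified)

open Pool.Agent.Y94.R (Lp Pell HRing HOpen hpol hy toH hcst hDel hDel_ne_zero liftH liftH_toH mkH
  mkH_e HPt.evA_hcst HPt.evA_toH HPt.evB_hpol HPt.evB_hy isDomain_HRing periods Ic)

/-- The special points over a number field. -/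
theorem exists_special.{u} {g k : ℕ} {K : Type u} [Field K] [NumberField K]
    {D P Q A B : K[X]} (h : TwoPairs g k D P Q A B) (σ : K →+* ℂ) {m : ℕ}
    (γ : Fin m → Lp (D.map σ))
    (hind : LinearIndependent ℝ fun (l : Fin m) (j : Fin g) =>
      ∫ t in (0 : ℝ)..1, (γ l).x t ^ (j : ℕ) * deriv (γ l).x t / (γ l).y t)
    (hx : ∀ l t, (γ l).x t ≠ 0) :
    ∃ (L : Type) (_ : Field L) (_ : NumberField L) (ι : K →+* L) (s : L →+* ℂ), s.comp ι = σ ∧
      ∃ (β : L) (b : Fin m → L) (p q : Fin m → ℤ), (D.map ι).eval β = 0 ∧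
        (∀ i, SpK (D.map ι) (P.map ι) (Q.map ι) (A.map ι) (B.map ι) k (p i) (q i) β) ∧
        (∀ i, SpK (D.map ι) (P.map ι) (Q.map ι) (A.map ι) (B.map ι) k (p i) (q i) (b i)) ∧
        (IsIntegral ℤ β ∧ IsIntegral ℤ β⁻¹) ∧
        (∀ i, IsIntegral ℤ (b i) ∧ IsIntegral ℤ (b i)⁻¹) ∧
        (∀ i l, (γ l).Off (s (b i))) ∧
        LinearIndependent ℝ fun (i : Fin m) (l : Fin m) =>
          (p i : ℝ) * ((γ l).rho (P.map σ) (Q.map σ) (s (b i)) -
            (γ l).rho (P.map σ) (Q.map σ) (s β)) +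
          (q i : ℝ) * (rhoU (A.map σ) (B.map σ) k (γ l) (s (b i)) -
            rhoU (A.map σ) (B.map σ) k (γ l) (s β)) := by
  have hσ := h.map σ
  obtain ⟨r, hr⟩ := exists_r hσ.eqP
  obtain ⟨t, ht⟩ := exists_s hσ.eqA hσ.pos hσ.neA
  have hp : Pell (D.map σ) (P.map σ) (Q.map σ) r := ⟨hσ.eqP, hr, hσ.degP⟩
  have hu : Un (D.map σ) (A.map σ) (B.map σ) t k := ⟨hσ.eqA, ht, hσ.pos, hσ.neA⟩
  have hrg := hp.natDegree_r hσ.degD
  obtain ⟨β, hβ⟩ : ∃ β, (D.map σ).eval β = 0 := by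
    refine IsAlgClosed.exists_root _ ?_
    rw [degree_eq_natDegree hσ.sqf.ne_zero, hσ.degD]
    exact_mod_cast (by omega : 2 * g + 2 ≠ 0)
  have hβ0 : β ≠ 0 := by
    rintro rfl
    exact hu.D_ne hβ
  obtain ⟨b, p, q, hpq, hb1, hb2, hb3⟩ := core γ hσ.sqf hp hu hx (fun c hc => by
    rw [hrg]
    exact periods γ hind c hc) β
  have hβu := hσ.unit_of_sp one_ne_zero one_ne_zero (sp_root hσ.eqP hσ.eqA hβ0 hβ 1 1)
  have hbu : ∀ i, IsIntegral ℤ (b i) ∧ IsIntegral ℤ (b i)⁻¹ := fun i =>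
    hσ.unit_of_sp (hpq i).1 (hpq i).2 (hb2 i)
  choose y hy using fun i => (hb2 i).2
  have hyint : ∀ i, @IsIntegral K ℂ _ _ σ.toAlgebra (y i) := by
    intro i
    let _ := σ.toAlgebra
    refine IsIntegral.of_pow (n := 2) two_pos ?_
    rw [(hy i).1]
    have h1 : (D.map σ).eval (b i) = aeval (b i) D := by
      rw [eval_map]
      rfl
    rw [h1]
    have h2 : IsIntegral K (b i) := (hbu i).1.tower_top
    exact adjoin_le_integralClosure h2 (aeval_mem_adjoin_singleton K (b i))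
  obtain ⟨L, hL1, hL2, ι, s, hs, hS⟩ := exists_field σ (Set.range b ∪ Set.range y ∪ {β})
    (((Set.finite_range b).union (Set.finite_range y)).union (Set.finite_singleton β)) (by
      let _ := σ.toAlgebra
      rintro x ((⟨i, rfl⟩ | ⟨i, rfl⟩) | hx)
      · exact (hbu i).1.tower_top
      · exact hyint i
      · rw [Set.mem_singleton_iff.1 hx]
        exact hβu.1.tower_top)
  choose b' hb' using fun i => hS (b i) (Or.inl (Or.inl ⟨i, rfl⟩))
  choose y' hy' using fun i => hS (y i) (Or.inl (Or.inr ⟨i, rfl⟩))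
  obtain ⟨β', hβ'⟩ := hS β (Or.inr rfl)
  have hev : ∀ (R : K[X]) (x : L), s ((R.map ι).eval x) = (R.map σ).eval (s x) := by
    intro R x
    rw [← hs, ← Polynomial.map_map, eval_map (p := R.map ι), eval₂_hom]
  have hDβ : (D.map ι).eval β' = 0 := by
    refine s.injective ?_
    rw [hev, hβ', hβ, map_zero]
  have hβ'0 : β' ≠ 0 := by
    rintro rfl
    rw [map_zero] at hβ'
    exact hβ0 hβ'.symm
  refine ⟨L, hL1, hL2, ι, s, hs, β', b', p, q, hDβ, ?_, ?_, ?_, ?_, ?_, ?_⟩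
  · intro i
    have h1 := sp_root hσ.eqP hσ.eqA hβ0 hβ (p i) (q i)
    refine ⟨hβ'0, 0, by rw [hDβ, zero_pow two_ne_zero], 2, two_ne_zero, ?_⟩
    refine s.injective ?_
    have h2 := congrArg (Polynomial.eval β) hσ.eqP
    have h3 := congrArg (Polynomial.eval β) hσ.eqA
    simp only [eval_sub, eval_mul, eval_pow, eval_X, eval_one, hβ, zero_mul, sub_zero] at h2 h3
    have h4 : ∀ (w : ℂ) (n : ℤ), w ^ 2 = 1 → (w ^ n) ^ 2 = 1 := by
      intro w n hw
      rw [← zpow_natCast, ← zpow_mul, mul_comm, zpow_mul, zpow_natCast, hw, one_zpow]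
    have h5 : ((A.map σ).eval β / β ^ k) ^ 2 = 1 := by
      rw [div_pow, h3, ← pow_mul, mul_comm k 2, div_self (pow_ne_zero _ hβ0)]
    rw [mul_zero, mul_zero, add_zero, add_zero, map_pow, map_mul, map_zpow₀, map_zpow₀,
      map_div₀, map_pow, hev, hev, hβ', mul_pow, h4 _ _ h2, h4 _ _ h5, one_mul, map_one]
  · intro i
    obtain ⟨h1, N, hN, h2⟩ := hy i
    refine ⟨?_, y' i, ?_, N, hN, ?_⟩
    · intro h3
      refine (hb2 i).1 ?_
      rw [← hb' i, h3, map_zero]
    · refine s.injective ?_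
      rw [map_pow, hy', hev, hb', h1]
    · refine s.injective ?_
      rw [map_pow, map_mul, map_zpow₀, map_zpow₀, map_div₀, map_add, map_add, map_mul, map_mul,
        map_pow, hev, hev, hev, hev, hb', hy', map_one]
      exact h2
  · constructor
    · exact isIntegral_of_map s (by rw [hβ']; exact hβu.1)
    · exact isIntegral_of_map s (by rw [map_inv₀, hβ']; exact hβu.2)
  · intro i
    constructor
    · exact isIntegral_of_map s (by rw [hb']; exact (hbu i).1)
    · exact isIntegral_of_map s (by rw [map_inv₀, hb']; exact (hbu i).2)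
  · intro i l
    rw [hb']
    exact hb1 i l
  · simp only [hb', hβ']
    exact hb3

end Pool.Agent.T9h73.TN
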