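import Pool.Agent.T9h73.TN.Int
import Pool.Agent.T9h73.TP.Unr
import Pool.Agent.TH826.MK.Variety
set_option autoImplicit false

/-!
The symbols are unramified at all discrete valuations of the function field over a number field.
-/

namespace Pool.Agent.T9h73.TN

open Polynomial

open Pool.Agent.TH826.MK (KQ symb unitPart Unramified symb_update_mul symb_update_zpow
  mem_unitPart_of_oneUnit' mem_unitPart_of_pow val_one_of_sub_one)

open Pool.Agent.T9h73.TP (oneUnits mem_oneUnits div_mem_oneUnits mem_unitPart_of_units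
  symb_mul_left symb_mul_right symb_zpow_left mem_unitPart_left mem_unitPart_right hw hw_mul hcu
  coe_hcu sy map_symb2 map_hpol)

open scoped WithZero

/-- The point `b` is special for the exponents `p` and `q`: the value of
`(P + Q y) ^ p ((A + B y) / x ^ k) ^ q` at a point with `x = b` is a root of unity. -/
def SpK {K : Type*} [Field K] (D P Q A B : K[X]) (k : ℕ) (p q : ℤ) (b : K) : Prop :=
  b ≠ 0 ∧ ∃ y : K, y ^ 2 = D.eval b ∧ ∃ N : ℕ, N ≠ 0 ∧
    ((P.eval b + Q.eval b * y) ^ p * ((A.eval b + B.eval b * y) / b ^ k) ^ q) ^ N = 1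

/-- Two units with almost the same sum with the inverse. -/
theorem near {M : Type*} [Field M] (v : Valuation M ℤᵐ⁰) {Z W : Mˣ} (hZ : v (Z : M) = 1)
    (hW : v (W : M) = 1)
    (h : v (((Z : M) + (Z : M)⁻¹) - ((W : M) + (W : M)⁻¹)) < 1) :
    Z / W ∈ oneUnits v ∨ Z * W ∈ oneUnits v := by
  have hZ0 := Z.ne_zero
  have hW0 := W.ne_zero
  have h1 : ((Z : M) + (Z : M)⁻¹) - ((W : M) + (W : M)⁻¹) =
      ((Z : M) - W) * (1 - ((Z : M) * W)⁻¹) := by
    field_simp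
    ring
  rw [h1, map_mul] at h
  by_cases h2 : v ((Z : M) - W) < 1
  · exact Or.inl (div_mem_oneUnits v hW h2)
  · right
    have h3 : v (1 - ((Z : M) * W)⁻¹) < 1 := by
      by_contra h4
      exact absurd h (not_lt.2 (one_le_mul (not_lt.1 h2) (not_lt.1 h4)))
    rw [mem_oneUnits, Units.val_mul]
    have h4 : (Z : M) * W - 1 = (Z * W) * (1 - ((Z : M) * W)⁻¹) := by
      field_simp
    rw [h4, map_mul, map_mul, hZ, hW, one_mul, one_mul]
    exact h3

section Main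

variable {K M : Type*} [Field K] [Field M] (v : Valuation M ℤᵐ⁰) (cf : K →+* M)

theorem val_int {c : K} (hc : IsIntegral ℤ c) : v (cf c) ≤ 1 :=
  Pool.Agent.TH826.MK.val_le_one_of_integral v (map_isIntegral_int _ hc)

theorem val_unit {c : K} (hc : IsIntegral ℤ c) (hc' : IsIntegral ℤ c⁻¹) (hc0 : c ≠ 0) :
    v (cf c) = 1 := by
  refine le_antisymm (val_int v cf hc) ?_
  have h1 := val_int v cf hc'
  rw [map_inv₀, map_inv₀] at h1
  exact (inv_le_one₀ (zero_lt_iff.2 ((Valuation.ne_zero_iff v).2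
    ((_root_.map_ne_zero cf).2 hc0)))).1 h1

theorem val_eval {p : K[X]} (hp : ∀ i, IsIntegral ℤ (p.coeff i)) {x : M} (hx : v x ≤ 1) :
    v (p.eval₂ cf x) ≤ 1 := by
  rw [eval₂_eq_eval_map]
  exact val_eval_le v (fun i => by rw [coeff_map]; exact val_int v cf (hp i)) hx

theorem val_eval_sub {p : K[X]} (hp : ∀ i, IsIntegral ℤ (p.coeff i)) {x : M} (hx : v x ≤ 1)
    {b : K} (hb : IsIntegral ℤ b) (h : v (x - cf b) < 1) :
    v (p.eval₂ cf x - cf (p.eval b)) < 1 := by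
  have h1 : cf (p.eval b) = p.eval₂ cf (cf b) := by
    rw [Polynomial.eval₂_hom]
  rw [h1, Polynomial.eval₂_eq_sum_range, Polynomial.eval₂_eq_sum_range,
    ← Finset.sum_sub_distrib]
  refine (Valuation.map_sum_le v (g := v (x - cf b)) fun i _ => ?_).trans_lt h
  have h2 : cf (p.coeff i) * x ^ i - cf (p.coeff i) * cf b ^ i =
      cf (p.coeff i) * ((x - cf b) *
        ∑ j ∈ Finset.range i, x ^ j * cf b ^ (i - 1 - j)) := by
    rw [(Commute.all x (cf b)).mul_geom_sum₂ i]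
    ring
  rw [h2, map_mul, map_mul]
  have h3 : v (∑ j ∈ Finset.range i, x ^ j * cf b ^ (i - 1 - j)) ≤ 1 := by
    refine Valuation.map_sum_le v fun j _ => ?_
    rw [map_mul, map_pow, map_pow]
    exact mul_le_one' (pow_le_one' hx _) (pow_le_one' (val_int v cf hb) _)
  calc v (cf (p.coeff i)) * (v (x - cf b) * v (∑ j ∈ Finset.range i,
        x ^ j * cf b ^ (i - 1 - j))) ≤ 1 * (v (x - cf b) * 1) :=
        mul_le_mul' (val_int v cf (hp i)) (mul_le_mul' le_rfl h3)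
    _ = v (x - cf b) := by rw [mul_one, one_mul]

/-- the quotient by `x ^ k` -/
theorem val_div_sub {p : K[X]} (hp : ∀ i, IsIntegral ℤ (p.coeff i)) {x : M} (hx : v x = 1)
    {b : K} (hb : IsIntegral ℤ b) (hb' : v (cf b) = 1) (h : v (x - cf b) < 1) (k : ℕ) :
    v (p.eval₂ cf x / x ^ k - cf (p.eval b / b ^ k)) < 1 := by
  have hx0 : x ≠ 0 := by
    rintro rfl
    rw [map_zero] at hx
    exact zero_ne_one hx
  have hb0 : cf b ≠ 0 := by
    intro h1
    rw [h1, map_zero] at hb'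
    exact zero_ne_one hb'
  have h1 : p.eval₂ cf x / x ^ k - cf (p.eval b / b ^ k) =
      ((p.eval₂ cf x - cf (p.eval b)) * cf b ^ k + cf (p.eval b) * (-(x ^ k - cf b ^ k))) /
        (x ^ k * cf b ^ k) := by
    rw [map_div₀, map_pow]
    have e1 : x ^ k ≠ 0 := pow_ne_zero k hx0
    have e2 : cf b ^ k ≠ 0 := pow_ne_zero k hb0
    field_simp
    ring
  have h2 := val_eval_sub v cf (p := X ^ k) (fun i => by
    rw [coeff_X_pow]
    split_ifs
    · exact isIntegral_one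
    · exact isIntegral_zero) hx.le hb h
  rw [eval₂_pow, eval₂_X, eval_pow, eval_X, map_pow] at h2
  have h3 : v (cf (p.eval b)) ≤ 1 := by
    have h4 := val_eval v cf hp (x := cf b) hb'.le
    rwa [Polynomial.eval₂_hom] at h4
  rw [h1, map_div₀, map_mul, map_pow, map_pow, hx, hb', one_pow, one_mul, div_one]
  refine (v.map_add _ _).trans_lt (max_lt ?_ ?_)
  · rw [map_mul, map_pow, hb', one_pow, mul_one]
    exact val_eval_sub v cf hp hx.le hb h
  · rw [map_mul, Valuation.map_neg, mul_comm]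
    exact mul_lt_one_of_lt_of_le h2 h3

attribute [local instance] Polynomial.algebra in
/-- The polynomial `2 (P A + D Q B)` has integral coefficients. -/
theorem isIntegral_G {D P Q A B : K[X]} {k : ℕ} (hPQ : P ^ 2 - D * Q ^ 2 = 1)
    (hAB : A ^ 2 - D * B ^ 2 = X ^ (2 * k)) (hPint : ∀ i, IsIntegral ℤ ((C 2 * P).coeff i))
    (hAint : ∀ i, IsIntegral ℤ ((C 2 * A).coeff i)) (i : ℕ) :
    IsIntegral ℤ ((C 2 * (P * A + D * Q * B)).coeff i) := by
  refine IsIntegral.coeff ?_ i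
  have h1 : IsIntegral ℤ[X] (C 2 * P) := Polynomial.isIntegral_iff_isIntegral_coeff.2 hPint
  have h2 : IsIntegral ℤ[X] (C 2 * A) := Polynomial.isIntegral_iff_isIntegral_coeff.2 hAint
  have h3 : IsIntegral ℤ[X] (X : K[X]) := Polynomial.isIntegral_iff_isIntegral_coeff.2 fun i => by
    rw [coeff_X]
    split_ifs
    · exact isIntegral_one
    · exact isIntegral_zero
  have h4 : IsIntegral ℤ[X] (C 4 : K[X]) := Polynomial.isIntegral_iff_isIntegral_coeff.2 fun i => by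
    rw [coeff_C]
    split_ifs
    · have h5 : IsIntegral ℤ ((4 : ℤ) : K) := isIntegral_algebraMap (R := ℤ) (x := 4)
      simpa using h5
    · exact isIntegral_zero
  refine isIntegral_quad (a := (C 2 * P) * (C 2 * A))
    (b := (C 2 * P) ^ 2 * X ^ (2 * k) + (C 2 * A) ^ 2 - C 4 * X ^ (2 * k))
    (h1.mul h2) ((((h1.pow 2).mul (h3.pow _)).add (h2.pow 2)).sub (h4.mul (h3.pow _))) ?_
  have h5 : (C 4 : K[X]) = C 2 * C 2 := by
    rw [← C_mul]
    norm_num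
  have h6 : (C 2 : K[X]) = 2 := map_ofNat C 2
  rw [h5, h6]
  linear_combination (-4 * D * B ^ 2) * hPQ + 4 * (1 - P ^ 2) * hAB

variable {D P Q A B : K[X]} {k : ℕ} (hPQ : P ^ 2 - D * Q ^ 2 = 1)
  (hAB : A ^ 2 - D * B ^ 2 = X ^ (2 * k)) (hA : A.natDegree ≤ k)
  (hPint : ∀ i, IsIntegral ℤ ((C 2 * P).coeff i))
  (hAint : ∀ i, IsIntegral ℤ ((C 2 * A).coeff i)) (hA0 : IsIntegral ℤ ((2 * A.eval 0)⁻¹))
  {x y : M} (hx0 : x ≠ 0)
  (hy : y ^ 2 = D.eval₂ cf x) {Z₁ Z₂ : Mˣ} (hZ₁ : (Z₁ : M) = P.eval₂ cf x + Q.eval₂ cf x * y)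
  (hZ₂ : (Z₂ : M) * x ^ k = A.eval₂ cf x + B.eval₂ cf x * y)

include hPQ hy hZ₁ in
theorem inv_Z₁ : (Z₁ : M)⁻¹ = P.eval₂ cf x - Q.eval₂ cf x * y := by
  have h1 := congrArg (Polynomial.eval₂ cf x) hPQ
  rw [eval₂_sub, eval₂_mul, eval₂_pow, eval₂_pow, eval₂_one] at h1
  refine inv_eq_of_mul_eq_one_right ?_
  rw [hZ₁]
  linear_combination h1 - Q.eval₂ cf x ^ 2 * hy

include hAB hy hx0 hZ₂ in
theorem inv_Z₂ : (Z₂ : M)⁻¹ = (A.eval₂ cf x - B.eval₂ cf x * y) / x ^ k := by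
  have h1 := congrArg (Polynomial.eval₂ cf x) hAB
  rw [eval₂_sub, eval₂_mul, eval₂_pow, eval₂_pow, eval₂_pow, eval₂_X] at h1
  have h2 : (x ^ k) ^ 2 = x ^ (2 * k) := by
    rw [← pow_mul]
    congr 1
    ring
  have hxk : x ^ k ≠ 0 := pow_ne_zero k hx0
  have h3 : (Z₂ : M) = (A.eval₂ cf x + B.eval₂ cf x * y) / x ^ k := by
    rw [← hZ₂]
    field_simp
  refine inv_eq_of_mul_eq_one_right ?_
  rw [h3]
  rw [← h2] at h1
  field_simp
  linear_combination h1 - B.eval₂ cf x ^ 2 * hy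

include hPQ hy hZ₁ in
theorem sum_Z₁ : (Z₁ : M) + (Z₁ : M)⁻¹ = (C 2 * P).eval₂ cf x := by
  rw [inv_Z₁ cf hPQ hy hZ₁, hZ₁, eval₂_mul, eval₂_C, map_ofNat]
  ring

include hAB hy hx0 hZ₂ in
theorem sum_Z₂ : (Z₂ : M) + (Z₂ : M)⁻¹ = (C 2 * A).eval₂ cf x / x ^ k := by
  have hxk : x ^ k ≠ 0 := pow_ne_zero k hx0
  have h3 : (Z₂ : M) = (A.eval₂ cf x + B.eval₂ cf x * y) / x ^ k := by
    rw [← hZ₂]
    field_simp
  rw [inv_Z₂ cf hAB hx0 hy hZ₂, h3, eval₂_mul, eval₂_C, map_ofNat]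
  ring

include hPQ hAB hy hx0 hZ₁ hZ₂ in
theorem sum_Z₁₂ : (Z₁ : M) * Z₂ + ((Z₁ : M) * Z₂)⁻¹ =
    (C 2 * (P * A + D * Q * B)).eval₂ cf x / x ^ k := by
  have hxk : x ^ k ≠ 0 := pow_ne_zero k hx0
  have h3 : (Z₂ : M) = (A.eval₂ cf x + B.eval₂ cf x * y) / x ^ k := by
    rw [← hZ₂]
    field_simp
  rw [mul_inv, inv_Z₁ cf hPQ hy hZ₁, inv_Z₂ cf hAB hx0 hy hZ₂, h3, hZ₁, eval₂_mul, eval₂_C,
    map_ofNat, eval₂_add, eval₂_mul, eval₂_mul, eval₂_mul, ← hy]
  ring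

theorem sq_of_sum {z a : M} (hz : z ≠ 0) (h : z + z⁻¹ = a) : z ^ 2 + 1 = a * z := by
  rw [← h]
  field_simp

include hPQ hy hZ₁ hPint in
theorem val_Z₁ (hx : v x ≤ 1) : v (Z₁ : M) = 1 :=
  val_eq_one v Z₁.ne_zero (val_eval v cf hPint hx)
    (sq_of_sum Z₁.ne_zero (sum_Z₁ cf hPQ hy hZ₁))

include hAB hy hZ₂ hx0 hA hAint in
theorem val_Z₂ (hx : 1 ≤ v x) : v (Z₂ : M) = 1 := by
  refine val_eq_one v Z₂.ne_zero ?_ (sq_of_sum Z₂.ne_zero (sum_Z₂ cf hAB hx0 hy hZ₂))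
  rw [eval₂_eq_eval_map]
  refine val_eval_div v (natDegree_map_le.trans ((natDegree_C_mul_le _ _).trans hA))
    (fun i => ?_) hx
  rw [coeff_map]
  exact val_int v cf (hAint i)

include hPQ hAB hx0 hy hZ₁ hZ₂ hPint hAint hA in
/-- The residue of `Z₁ ^ p Z₂ ^ q` at a point with special `x`-coordinate is a root of unity. -/
theorem residue {p q : ℤ} {b : K} (hb : SpK D P Q A B k p q b) (hbi : IsIntegral ℤ b)
    (hbi' : IsIntegral ℤ b⁻¹) (hx : v (x - cf b) < 1) :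
    ∃ N : ℕ, N ≠ 0 ∧ v (((Z₁ ^ p * Z₂ ^ q : Mˣ) : M) ^ N - 1) < 1 := by
  obtain ⟨hb0, y₀, hy₀, N, hN, hζ⟩ := hb
  have hcfb : v (cf b) = 1 := val_unit v cf hbi hbi' hb0
  have hvx : v x = 1 := by
    have h1 : x = cf b + (x - cf b) := by ring
    rw [h1, Valuation.map_add_eq_of_lt_left v (by rw [hcfb]; exact hx), hcfb]
  have h1 := congrArg (Polynomial.eval b) hPQ
  have h2 := congrArg (Polynomial.eval b) hAB
  simp only [eval_sub, eval_mul, eval_pow, eval_X, eval_one] at h1 h2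
  rw [← hy₀] at h1 h2
  have hbk : b ^ k ≠ 0 := pow_ne_zero k hb0
  have hw₁ : P.eval b + Q.eval b * y₀ ≠ 0 := by
    intro h3
    refine one_ne_zero (α := K) ?_
    rw [← h1]
    linear_combination (P.eval b - Q.eval b * y₀) * h3
  have hw₂ : (A.eval b + B.eval b * y₀) / b ^ k ≠ 0 := by
    refine div_ne_zero (fun h3 => ?_) hbk
    refine pow_ne_zero (2 * k) hb0 ?_
    rw [← h2]
    linear_combination (A.eval b - B.eval b * y₀) * h3
  set W₁ : Mˣ := Units.map (cf : K →* M) (Units.mk0 _ hw₁) with hW₁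
  set W₂ : Mˣ := Units.map (cf : K →* M) (Units.mk0 _ hw₂) with hW₂
  -- the same relations at the point
  have hyb : (cf y₀) ^ 2 = D.eval₂ cf (cf b) := by
    rw [← map_pow, hy₀, Polynomial.eval₂_hom]
  have hW₁e : (W₁ : M) = P.eval₂ cf (cf b) + Q.eval₂ cf (cf b) * cf y₀ := by
    rw [Polynomial.eval₂_hom, Polynomial.eval₂_hom, ← map_mul, ← map_add]
    rfl
  have hW₂e : (W₂ : M) * cf b ^ k = A.eval₂ cf (cf b) + B.eval₂ cf (cf b) * cf y₀ := by
    rw [Polynomial.eval₂_hom, Polynomial.eval₂_hom, ← map_mul, ← map_add, ← map_pow]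
    show cf ((A.eval b + B.eval b * y₀) / b ^ k) * cf (b ^ k) = _
    rw [← map_mul]
    congr 1
    field_simp
  have hcfb0 : cf b ≠ 0 := (_root_.map_ne_zero cf).2 hb0
  have hvZ₁ := val_Z₁ v cf hPQ hPint hy hZ₁ hvx.le
  have hvZ₂ := val_Z₂ v cf hAB hA hAint hx0 hy hZ₂ hvx.ge
  have hvW₁ := val_Z₁ v cf hPQ hPint hyb hW₁e hcfb.le
  have hvW₂ := val_Z₂ v cf hAB hA hAint hcfb0 hyb hW₂e hcfb.ge
  have n₁ : Z₁ / W₁ ∈ oneUnits v ∨ Z₁ * W₁ ∈ oneUnits v := by
    refine near v hvZ₁ hvW₁ ?_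
    rw [sum_Z₁ cf hPQ hy hZ₁, sum_Z₁ cf hPQ hyb hW₁e, Polynomial.eval₂_hom]
    exact val_eval_sub v cf hPint hvx.le hbi hx
  have n₂ : Z₂ / W₂ ∈ oneUnits v ∨ Z₂ * W₂ ∈ oneUnits v := by
    refine near v hvZ₂ hvW₂ ?_
    rw [sum_Z₂ cf hAB hx0 hy hZ₂, sum_Z₂ cf hAB hcfb0 hyb hW₂e, Polynomial.eval₂_hom,
      ← map_pow, ← map_div₀]
    exact val_div_sub v cf hAint hvx hbi hcfb hx k
  have n₃ : (Z₁ * Z₂) / (W₁ * W₂) ∈ oneUnits v ∨ (Z₁ * Z₂) * (W₁ * W₂) ∈ oneUnits v := by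
    refine near v ?_ ?_ ?_
    · rw [Units.val_mul, map_mul, hvZ₁, hvZ₂, one_mul]
    · rw [Units.val_mul, map_mul, hvW₁, hvW₂, one_mul]
    · rw [Units.val_mul, Units.val_mul, sum_Z₁₂ cf hPQ hAB hx0 hy hZ₁ hZ₂,
        sum_Z₁₂ cf hPQ hAB hcfb0 hyb hW₁e hW₂e, Polynomial.eval₂_hom, ← map_pow, ← map_div₀]
      exact val_div_sub v cf (isIntegral_G hPQ hAB hPint hAint) hvx hbi hcfb hx k
  have hcase : (Z₁ / W₁ ∈ oneUnits v ∧ Z₂ / W₂ ∈ oneUnits v) ∨
      (Z₁ * W₁ ∈ oneUnits v ∧ Z₂ * W₂ ∈ oneUnits v) := by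
    rcases n₁ with a₁ | a₁ <;> rcases n₂ with a₂ | a₂
    · exact Or.inl ⟨a₁, a₂⟩
    · rcases n₃ with a₃ | a₃
      · left
        refine ⟨a₁, ?_⟩
        have e : Z₂ / W₂ = (Z₁ * Z₂) / (W₁ * W₂) / (Z₁ / W₁) := by
          rw [mul_div_mul_comm, mul_div_cancel_left]
        rw [e]
        exact Subgroup.div_mem _ a₃ a₁
      · right
        refine ⟨?_, a₂⟩
        have e : Z₁ * W₁ = (Z₁ * Z₂) * (W₁ * W₂) / (Z₂ * W₂) := by
          rw [mul_mul_mul_comm, mul_div_cancel_right]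
        rw [e]
        exact Subgroup.div_mem _ a₃ a₂
    · rcases n₃ with a₃ | a₃
      · left
        refine ⟨?_, a₂⟩
        have e : Z₁ / W₁ = (Z₁ * Z₂) / (W₁ * W₂) / (Z₂ / W₂) := by
          rw [mul_div_mul_comm, mul_div_cancel_right]
        rw [e]
        exact Subgroup.div_mem _ a₃ a₂
      · right
        refine ⟨a₁, ?_⟩
        have e : Z₂ * W₂ = (Z₁ * Z₂) * (W₁ * W₂) / (Z₁ * W₁) := by
          rw [mul_mul_mul_comm, mul_div_cancel_left]
        rw [e]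
        exact Subgroup.div_mem _ a₃ a₁
    · exact Or.inr ⟨a₁, a₂⟩
  have h6 : (W₁ ^ p * W₂ ^ q) ^ N = 1 := by
    refine Units.ext ?_
    rw [Units.val_pow_eq_pow_val, Units.val_mul, Units.val_zpow_eq_zpow_val,
      Units.val_zpow_eq_zpow_val, Units.val_one]
    show (cf (P.eval b + Q.eval b * y₀) ^ p *
      cf ((A.eval b + B.eval b * y₀) / b ^ k) ^ q) ^ N = 1
    rw [← map_zpow₀, ← map_zpow₀, ← map_mul, ← map_pow, hζ, map_one]
  refine ⟨N, hN, ?_⟩
  have h8 : (Z₁ ^ p * Z₂ ^ q) ^ N ∈ oneUnits v := by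
    rcases hcase with ⟨a₁, a₂⟩ | ⟨a₁, a₂⟩
    · have h7 : (Z₁ ^ p * Z₂ ^ q) ^ N = ((Z₁ / W₁) ^ p * (Z₂ / W₂) ^ q) ^ N := by
        rw [← mul_one (((Z₁ / W₁) ^ p * (Z₂ / W₂) ^ q) ^ N), ← h6, ← mul_pow, div_zpow, div_zpow]
        congr 1
        rw [mul_mul_mul_comm, div_mul_cancel, div_mul_cancel]
      rw [h7]
      exact Subgroup.pow_mem _ (Subgroup.mul_mem _ (Subgroup.zpow_mem _ a₁ p)
        (Subgroup.zpow_mem _ a₂ q)) N
    · have h7 : (Z₁ ^ p * Z₂ ^ q) ^ N = ((Z₁ * W₁) ^ p * (Z₂ * W₂) ^ q) ^ N := by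
        rw [mul_zpow, mul_zpow, mul_mul_mul_comm, mul_pow _ (W₁ ^ p * W₂ ^ q), h6, mul_one]
      rw [h7]
      exact Subgroup.pow_mem _ (Subgroup.mul_mem _ (Subgroup.zpow_mem _ a₁ p)
        (Subgroup.zpow_mem _ a₂ q)) N
  rw [mem_oneUnits, Units.val_pow_eq_pow_val] at h8
  exact h8

include hPQ hAB hx0 hy hZ₁ hZ₂ hPint hAint hA in
/-- The symbol is unramified. -/
theorem symb_mem {p q : ℤ} {b b' : K} (hb : SpK D P Q A B k p q b)
    (hb' : SpK D P Q A B k p q b') (hbi : IsIntegral ℤ b) (hbi' : IsIntegral ℤ b⁻¹)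
    (hb'i : IsIntegral ℤ b') (hb'i' : IsIntegral ℤ b'⁻¹) {H c : Mˣ} (hxb' : x - cf b' ≠ 0)
    (hH : (H : M) = (x - cf b) / (x - cf b')) (hc : (c : M) = cf (b' / b)) :
    (p : ℚ) • symb ![Z₁, H] + (q : ℚ) • symb ![Z₂, H * c] ∈ unitPart v 2 := by
  have hb0 := hb.1
  have hb0' := hb'.1
  have vb : v (cf b) = 1 := val_unit v cf hbi hbi' hb0
  have vb' : v (cf b') = 1 := val_unit v cf hb'i hb'i' hb0'
  have hvc : v (c : M) = 1 := by
    rw [hc, map_div₀, map_div₀, vb, vb', div_one]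
  have hdiff : v (cf b' - cf b) ≤ 1 := (v.map_sub _ _).trans (max_le vb'.le vb.le)
  rcases lt_trichotomy (v x) 1 with hx | hx | hx
  · -- the points with `x = 0`
    have e1 : v (x - cf b) = 1 := by
      rw [Valuation.map_sub_eq_of_lt_right v (by rw [vb]; exact hx), vb]
    have e1' : v (x - cf b') = 1 := by
      rw [Valuation.map_sub_eq_of_lt_right v (by rw [vb']; exact hx), vb']
    refine Submodule.add_mem _ (Submodule.smul_mem _ _ (mem_unitPart_of_units v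
      (val_Z₁ v cf hPQ hPint hy hZ₁ hx.le) ?_)) (Submodule.smul_mem _ _ (mem_unitPart_right v ?_))
    · rw [hH, map_div₀, e1, e1', div_one]
    · rw [mem_oneUnits, Units.val_mul, hH, hc, map_div₀]
      have hcb : cf b ≠ 0 := (_root_.map_ne_zero cf).2 hb0
      have e2 : (x - cf b) / (x - cf b') * (cf b' / cf b) - 1 =
          x * (cf b' - cf b) / (cf b * (x - cf b')) := by
        field_simp
        ring
      rw [e2, map_div₀, map_mul, map_mul, e1', vb, mul_one, div_one]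
      exact mul_lt_one_of_lt_of_le hx hdiff
  · -- the other points
    have hz1 := val_Z₁ v cf hPQ hPint hy hZ₁ hx.le
    have hz2 := val_Z₂ v cf hAB hA hAint hx0 hy hZ₂ hx.ge
    have e1 : (p : ℚ) • symb ![Z₁, H] + (q : ℚ) • symb ![Z₂, H * c] =
        symb ![Z₁ ^ p * Z₂ ^ q, H] + (q : ℚ) • symb ![Z₂, c] := by
      rw [symb_mul_right, symb_mul_left, symb_zpow_left, symb_zpow_left, smul_add]
      abel
    rw [e1]
    refine Submodule.add_mem _ ?_ (Submodule.smul_mem _ _ (mem_unitPart_of_units v hz2 hvc))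
    have hle : v (x - cf b) ≤ 1 := (v.map_sub _ _).trans (max_le hx.le vb.le)
    have hle' : v (x - cf b') ≤ 1 := (v.map_sub _ _).trans (max_le hx.le vb'.le)
    rcases hle.lt_or_eq with h1 | h1
    · obtain ⟨N, hN, h2⟩ := residue v cf hPQ hAB hA hPint hAint hx0 hy hZ₁ hZ₂ hb hbi hbi' h1
      exact mem_unitPart_of_pow v 0 ![Z₁ ^ p * Z₂ ^ q, H] hN h2
    rcases hle'.lt_or_eq with h2 | h2
    · obtain ⟨N, hN, h3⟩ := residue v cf hPQ hAB hA hPint hAint hx0 hy hZ₁ hZ₂ hb' hb'i hb'i' h2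
      exact mem_unitPart_of_pow v 0 ![Z₁ ^ p * Z₂ ^ q, H] hN h3
    refine mem_unitPart_of_units v ?_ ?_
    · rw [Units.val_mul, Units.val_zpow_eq_zpow_val, Units.val_zpow_eq_zpow_val, map_mul,
        map_zpow₀, map_zpow₀, hz1, hz2, one_zpow, one_zpow, one_mul]
    · rw [hH, map_div₀, h1, h2, div_one]
  · -- the points at infinity
    have hz2 := val_Z₂ v cf hAB hA hAint hx0 hy hZ₂ hx.le
    have hone : H ∈ oneUnits v := by
      rw [mem_oneUnits, hH]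
      have e : (x - cf b) / (x - cf b') - 1 = (cf b' - cf b) / (x - cf b') := by
        field_simp
        ring
      rw [e, map_div₀]
      have h1 : v (x - cf b') = v x :=
        Valuation.map_sub_eq_of_lt_left v (by rw [vb']; exact hx)
      rw [h1, div_lt_one₀ (zero_lt_one.trans hx)]
      exact hdiff.trans_lt hx
    rw [symb_mul_right, smul_add]
    exact Submodule.add_mem _ (Submodule.smul_mem _ _ (mem_unitPart_right v hone))
      (Submodule.add_mem _ (Submodule.smul_mem _ _ (mem_unitPart_right v hone))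
        (Submodule.smul_mem _ _ (mem_unitPart_of_units v hz2 hvc)))

end Main

section Unram

open Pool.Agent.Y94.R (HRing HOpen hpol hy hy_eq toH hcst hx hz isUnit_hx coe_hx coe_hz)

variable {K : Type*} [Field K] {D P Q A B : K[X]} {k : ℕ} {n : ℕ} (b : Fin n → K)

/-- The symbols are unramified at all discrete valuations. -/
theorem sy_unramified (hPQ : P ^ 2 - D * Q ^ 2 = 1) (hAB : A ^ 2 - D * B ^ 2 = X ^ (2 * k))
    (hA : A.natDegree ≤ k) (hPint : ∀ i, IsIntegral ℤ ((C 2 * P).coeff i))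
    (hAint : ∀ i, IsIntegral ℤ ((C 2 * A).coeff i)) {i₀ : Fin n} (h0 : b i₀ = 0) {p q : ℤ}
    {i j : Fin n} (hi : SpK D P Q A B k p q (b i)) (hj : SpK D P Q A B k p q (b j))
    (hii : IsIntegral ℤ (b i)) (hii' : IsIntegral ℤ (b i)⁻¹) (hji : IsIntegral ℤ (b j))
    (hji' : IsIntegral ℤ (b j)⁻¹) {L : Type*} [Field L] (f : HOpen D b →+* L) :
    KQ.map 2 f (sy b hPQ hAB h0 p q i j) ∈ Unramified L 2 := by
  unfold Unramified sy
  simp only [Submodule.mem_iInf]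
  intro v _
  rw [map_add, map_smul, map_smul, map_symb2, map_symb2, map_mul]
  have hxv : ∀ m, f (hx D b m : HOpen D b) = f (toH D b (hpol D X)) -
      (f.comp (hcst D b)) (b m) := by
    intro m
    rw [coe_hx, map_hpol, Polynomial.eval₂_sub, Polynomial.eval₂_X, Polynomial.eval₂_C]
  have hne : ∀ m, f (toH D b (hpol D X)) - (f.comp (hcst D b)) (b m) ≠ 0 := by
    intro m
    rw [← hxv]
    exact ((hx D b m).isUnit.map f).ne_zero
  have hx0 : f (toH D b (hpol D X)) ≠ 0 := by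
    have h1 := hne i₀
    rwa [h0, map_zero, sub_zero] at h1
  refine symb_mem v (f.comp (hcst D b)) hPQ hAB hA hPint hAint hx0
    (y := f (toH D b (hy D))) ?_ ?_ ?_ hi hj hii hii' hji hji' (hne j) ?_ ?_
  · rw [← map_pow, ← map_pow, hy_eq, map_hpol]
  · show f (hz b hPQ : HOpen D b) = _
    rw [coe_hz, map_add, map_add, map_mul, map_mul, map_hpol, map_hpol b f Q]
  · show f (hw b hAB h0 : HOpen D b) * _ = _
    rw [← map_pow, ← map_mul, hw_mul, map_add, map_add, map_mul, map_mul, map_hpol,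
      map_hpol b f B]
  · show f ((hx D b i / hx D b j : (HOpen D b)ˣ) : HOpen D b) = _
    rw [eq_div_iff (hne j), ← hxv, ← hxv, ← map_mul, ← Units.val_mul, div_mul_cancel]
  · show f (hcu D b (b j / b i) : HOpen D b) = _
    rw [coe_hcu b (div_ne_zero hj.1 hi.1)]
    rfl

end Unram

end Pool.Agent.T9h73.TN
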