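import Pool.Agent.T9h73.TN.Hyp
import Pool.Agent.T9h73.TN.Unr
import Pool.Agent.T9h73.TP.Asm
set_option autoImplicit false

/-!
The special points as elements of a number field.
-/

namespace Pool.Agent.T9h73.TN

open Polynomial

open Pool.Agent.T9h73.TP (Sp sp_root)

open Pool.Agent.Y94.R (Lp Pell)

/-- Finitely many algebraic numbers belong to a number field over `K`. -/
theorem exists_field.{u} {K : Type u} [Field K] [NumberField K] (σ : K →+* ℂ) (S : Set ℂ)
    (hS : S.Finite) (h : ∀ x ∈ S, @IsIntegral K ℂ _ _ σ.toAlgebra x) :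
    ∃ (L : Type) (_ : Field L) (_ : NumberField L) (ι : K →+* L) (s : L →+* ℂ), s.comp ι = σ ∧
      ∀ x ∈ S, ∃ x' : L, s x' = x := by
  let _ := σ.toAlgebra
  have : Finite S := hS
  have h1 : FiniteDimensional K (IntermediateField.adjoin K S) :=
    IntermediateField.finiteDimensional_adjoin h
  have h2 : NumberField (IntermediateField.adjoin K S) := NumberField.of_module_finite K _
  refine ⟨IntermediateField.adjoin K S, inferInstance, h2, algebraMap K _,
    (IntermediateField.adjoin K S).val, ?_, ?_⟩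
  · ext x
    rfl
  · intro x hx
    exact ⟨⟨x, IntermediateField.subset_adjoin K S hx⟩, rfl⟩

theorem isIntegral_of_map {L : Type*} [Field L] (s : L →+* ℂ) {x : L} (h : IsIntegral ℤ (s x)) :
    IsIntegral ℤ x :=
  (isIntegral_algHom_iff s.toIntAlgHom s.injective).1 h

section General

variable {K : Type*} [Field K] [CharZero K] {D P Q A B : K[X]} {k : ℕ}

theorem exists_r (hPQ : P ^ 2 - D * Q ^ 2 = 1) : ∃ r : K[X], derivative P = r * Q := by
  have h1 := congrArg derivative hPQ
  simp only [derivative_sub, derivative_mul, derivative_pow, derivative_one] at h1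
  have h4 : C ((2 : ℕ) : K) = (C 2 : K[X]) := by norm_num
  rw [h4] at h1
  simp only [Nat.add_one_sub_one, pow_one] at h1
  have h3 : (C (1 / 2) : K[X]) * C 2 = 1 := by
    rw [← C_mul]
    norm_num
  refine ⟨P * (C (1 / 2) * (derivative D * Q + C 2 * D * derivative Q)) -
    D * Q * derivative P, ?_⟩
  linear_combination (-derivative P) * hPQ + (C (1 / 2) * P) * h1 -
    (P ^ 2 * derivative P) * h3

theorem exists_s (hAB : A ^ 2 - D * B ^ 2 = X ^ (2 * k)) (hk : 0 < k) (hA0 : A.eval 0 ≠ 0) :
    ∃ s : K[X], X * derivative A - C (k : K) * A = s * B := by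
  have h1 := congrArg derivative hAB
  have h2 : X * derivative (X ^ (2 * k) : K[X]) = C (2 * k : K) * X ^ (2 * k) := by
    rw [derivative_X_pow]
    obtain ⟨j, hj⟩ : ∃ j, 2 * k = j + 1 := ⟨2 * k - 1, by omega⟩
    have h3 : ((2 * k : ℕ) : K) = 2 * (k : K) := by push_cast; ring
    rw [← h3, hj, Nat.add_sub_cancel]
    ring
  rw [← h1, ← hAB] at h2
  simp only [derivative_sub, derivative_mul, derivative_pow] at h2
  have h3 : (C (1 / 2) : K[X]) * C 2 = 1 := by
    rw [← C_mul]
    norm_num
  have h4 : C ((2 : ℕ) : K) = (C 2 : K[X]) := by norm_num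
  rw [h4, C_mul] at h2
  simp only [Nat.add_one_sub_one, pow_one] at h2
  have hcop : IsCoprime A (X ^ (2 * k) : K[X]) := by
    refine IsCoprime.pow_right ?_
    have h5 : IsCoprime (X - C 0 : K[X]) A :=
      ((irreducible_X_sub_C (0 : K)).coprime_iff_not_dvd).2
        (fun h6 => hA0 (dvd_iff_isRoot.1 h6))
    rw [C_0, sub_zero] at h5
    exact h5.symm
  obtain ⟨u, w, huw⟩ := hcop
  have hcop2 : IsCoprime A B := ⟨u + w * A, -(w * D * B), by
    rw [← huw, ← hAB]
    ring⟩
  have hdvd : B ∣ A * (X * derivative A - C (k : K) * A) := by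
    refine ⟨C (1 / 2) * (X * derivative D) * B + X * D * derivative B - C (k : K) * D * B, ?_⟩
    have h5 : C (2 : K) * (A * (X * derivative A - C (k : K) * A)) = C (2 : K) *
        (B * (C (1 / 2) * (X * derivative D) * B + X * D * derivative B -
          C (k : K) * D * B)) := by
      linear_combination h2 - X * derivative D * B ^ 2 * h3
    exact mul_left_cancel₀ (C_ne_zero.2 two_ne_zero) h5
  obtain ⟨s, hs⟩ := hcop2.symm.dvd_of_dvd_mul_left hdvd
  exact ⟨s, by rw [hs, mul_comm]⟩

end General

namespace TwoPairs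

/-- The data over a larger field. -/
theorem map {K L : Type*} [Field K] [Field L] {g k : ℕ} {D P Q A B : K[X]}
    (h : TwoPairs g k D P Q A B) [PerfectField K] (ι : K →+* L) :
    TwoPairs g k (D.map ι) (P.map ι) (Q.map ι) (A.map ι) (B.map ι) where
  sqf := by
    have h1 : D.Separable := PerfectField.separable_iff_squarefree.2 h.sqf
    exact (h1.map).squarefree
  degD := by rw [natDegree_map, h.degD]
  eqP := by
    have h1 := congrArg (Polynomial.map ι) h.eqP
    simpa using h1
  degP := by rw [natDegree_map]; exact h.degP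
  eqA := by
    have h1 := congrArg (Polynomial.map ι) h.eqA
    simpa using h1
  pos := h.pos
  degA := by rw [natDegree_map]; exact h.degA
  neA := by
    have h1 : (A.map ι).eval 0 = ι (A.eval 0) := by
      rw [eval_map, ← map_zero ι, eval₂_hom]
    rw [h1]
    exact (_root_.map_ne_zero ι).2 h.neA
  intP i := by
    have h1 : C 2 * P.map ι = (C 2 * P).map ι := by
      rw [Polynomial.map_mul, map_C, map_ofNat ι]
    rw [h1, coeff_map]
    exact map_isIntegral_int ι (h.intP i)
  unitP := by
    have h1 : C 2 * P.map ι = (C 2 * P).map ι := by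
      rw [Polynomial.map_mul, map_C, map_ofNat ι]
    rw [h1, leadingCoeff_map, ← map_inv₀]
    exact map_isIntegral_int ι h.unitP
  intA i := by
    have h1 : C 2 * A.map ι = (C 2 * A).map ι := by
      rw [Polynomial.map_mul, map_C, map_ofNat ι]
    rw [h1, coeff_map]
    exact map_isIntegral_int ι (h.intA i)
  unitA := by
    have h1 : C 2 * A.map ι = (C 2 * A).map ι := by
      rw [Polynomial.map_mul, map_C, map_ofNat ι]
    rw [h1, coeff_map, ← map_inv₀]
    exact map_isIntegral_int ι h.unitA

variable {g k : ℕ} {D P Q A B : ℂ[X]} (h : TwoPairs g k D P Q A B)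

include h

/-- The special points are units. -/
theorem unit_of_sp {p q : ℤ} (hp : p ≠ 0) (hq : q ≠ 0) {b : ℂ} (hb : Sp D P Q A B k p q b) :
    IsIntegral ℤ b ∧ IsIntegral ℤ b⁻¹ := by
  obtain ⟨hb0, y, hy, N, hN, hζ⟩ := hb
  have h0 : (C 2 * A).coeff 0 ≠ 0 := by
    rw [coeff_C_mul, coeff_zero_eq_eval_zero]
    exact mul_ne_zero two_ne_zero h.neA
  have hl : (C 2 * P).leadingCoeff ≠ 0 := by
    rw [Ne, leadingCoeff_eq_zero]
    refine mul_ne_zero (C_ne_zero.2 two_ne_zero) ?_
    rintro rfl
    have h1 := h.degP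
    rw [natDegree_zero] at h1
    exact lt_irrefl _ h1
  have hu : ∀ (V : ValuationSubring ℂ) (c : ℂ), c ≠ 0 → IsIntegral ℤ c → IsIntegral ℤ c⁻¹ →
      V.valuation c = 1 := by
    intro V c hc h1 h2
    refine le_antisymm (mem_of_isIntegral V h1) ?_
    have h3 := mem_of_isIntegral V h2
    rw [map_inv₀] at h3
    exact (inv_le_one₀ (zero_lt_iff.2 ((Valuation.ne_zero_iff _).2 hc))).1 h3
  have hv : ∀ V : ValuationSubring ℂ, V.valuation b = 1 := fun V =>
    val_special V.valuation h.eqP h.eqA h.pos h.degA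
      (hu V _ hl (h.intP _) h.unitP) h.degP (fun i => mem_of_isIntegral V (h.intP i))
      (fun i => mem_of_isIntegral V (h.intA i)) (hu V _ h0 (h.intA 0) h.unitA) hb0 hy hp hq
      hN hζ
  constructor
  · exact isIntegral_of_forall fun V => (V.valuation_le_one_iff b).1 (hv V).le
  · refine isIntegral_of_forall fun V => (V.valuation_le_one_iff _).1 ?_
    rw [map_inv₀, hv V, inv_one]

end TwoPairs

end Pool.Agent.T9h73.TN
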