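import Mathlib
set_option autoImplicit false

/-!
Hyperelliptic curves over a number field with two torsion pairs, with integral units.
-/

namespace Pool.Agent.T9h73.TN

open Polynomial

/-- The curve `y² = D(x)` of genus `g` has two torsion pairs, with integral units: `z₁ = P + Q y` is
a nonconstant solution of `P² - D Q² = 1`, `z₂ = (A + B y) / x ^ k` is a solution of
`A² - D B² = x ^ (2 k)` with `deg A ≤ k`, `A(0) ≠ 0`, the polynomials `2 P` and `2 A` have
coefficients that are algebraic integers, and the leading coefficient of `2 P` and the constant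
coefficient of `2 A` are units of the ring of algebraic integers. -/
structure TwoPairs {K : Type*} [Field K] (g k : ℕ) (D P Q A B : K[X]) : Prop where
  sqf : Squarefree D
  degD : D.natDegree = 2 * g + 2
  eqP : P ^ 2 - D * Q ^ 2 = 1
  degP : 0 < P.natDegree
  eqA : A ^ 2 - D * B ^ 2 = X ^ (2 * k)
  pos : 0 < k
  degA : A.natDegree ≤ k
  neA : A.eval 0 ≠ 0
  intP : ∀ i, IsIntegral ℤ ((C 2 * P).coeff i)
  unitP : IsIntegral ℤ ((C 2 * P).leadingCoeff)⁻¹
  intA : ∀ i, IsIntegral ℤ ((C 2 * A).coeff i)
  unitA : IsIntegral ℤ ((C 2 * A).coeff 0)⁻¹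

end Pool.Agent.T9h73.TN
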