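import Mathlib
set_option autoImplicit false

/-!
Integrality: the special points are algebraic units, and the polynomial `2 (P A + D Q B)` has
integral coefficients.
-/

namespace Pool.Agent.T9h73.TN

open Polynomial

section Val

variable {L Γ₀ : Type*} [Field L] [LinearOrderedCommGroupWithZero Γ₀] (v : Valuation L Γ₀)

/-- an element `q` with `q + 1 / q` integral is a unit -/
theorem val_eq_one {q a : L} (hq0 : q ≠ 0) (ha : v a ≤ 1) (hq : q ^ 2 + 1 = a * q) : v q = 1 := by
  rcases lt_trichotomy (v q) 1 with h | h | h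
  · exfalso
    have h1 : v (q ^ 2 + 1) = 1 := by
      rw [add_comm]
      refine Valuation.map_one_add_of_lt v ?_
      rw [map_pow]
      exact pow_lt_one₀ zero_le h (by norm_num)
    rw [hq, map_mul] at h1
    have h2 : v a * v q < 1 := by
      calc v a * v q ≤ 1 * v q := mul_le_mul_left ha _
        _ = v q := one_mul _
        _ < 1 := h
    exact h2.ne h1
  · exact h
  · exfalso
    have h1 : v (q ^ 2 + 1) = v q ^ 2 := by
      rw [← map_pow]
      refine Valuation.map_add_eq_of_lt_left v ?_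
      rw [map_one, map_pow]
      exact one_lt_pow₀ h (by norm_num)
    rw [hq, map_mul, pow_two] at h1
    have h2 : v a = v q := mul_right_cancel₀ ((Valuation.ne_zero_iff v).2 hq0) h1
    rw [h2] at ha
    exact absurd h (not_lt.2 ha)

/-- an element `q` with `q + 1 / q` not integral is not a unit -/
theorem val_ne_one {q a : L} (ha : 1 < v a) (hq : q ^ 2 + 1 = a * q) : v q ≠ 1 := by
  intro h
  have h1 : v (q ^ 2 + 1) ≤ 1 := (v.map_add _ _).trans (by rw [map_pow, h, map_one]; simp)
  rw [hq, map_mul, h, mul_one] at h1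
  exact absurd ha (not_lt.2 h1)

/-- The value of a polynomial with integral coefficients. -/
theorem val_eval_le {p : L[X]} (hp : ∀ i, v (p.coeff i) ≤ 1) {x : L} (hx : v x ≤ 1) :
    v (p.eval x) ≤ 1 := by
  rw [eval_eq_sum_range]
  refine Valuation.map_sum_le v fun i _ => ?_
  rw [map_mul, map_pow]
  exact mul_le_one' (hp i) (pow_le_one' hx _)

/-- The value at a pole of a polynomial whose leading coefficient is a unit. -/
theorem val_eval_lead {p : L[X]} (hm : v p.leadingCoeff = 1) (hdeg : 0 < p.natDegree)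
    (hp : ∀ i, v (p.coeff i) ≤ 1) {x : L} (hx : 1 < v x) : 1 < v (p.eval x) := by
  obtain ⟨n, hn⟩ : ∃ n, p.natDegree = n + 1 := ⟨p.natDegree - 1, by omega⟩
  have hx0 : 0 < v x := zero_lt_one.trans hx
  have h1 : p.eval x = p.leadingCoeff * x ^ (n + 1) +
      ∑ i ∈ Finset.range (n + 1), p.coeff i * x ^ i := by
    rw [eval_eq_sum_range, hn, Finset.sum_range_succ, ← hn, coeff_natDegree, add_comm]
  have h2 : v (∑ i ∈ Finset.range (n + 1), p.coeff i * x ^ i) ≤ v x ^ n := by
    refine Valuation.map_sum_le v fun i hi => ?_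
    rw [Finset.mem_range] at hi
    rw [map_mul, map_pow]
    calc v (p.coeff i) * v x ^ i ≤ 1 * v x ^ i := mul_le_mul_left (hp i) _
      _ = v x ^ i := one_mul _
      _ ≤ v x ^ n := pow_le_pow_right₀ hx.le (by omega)
  have h3 : v x ^ n < v (p.leadingCoeff * x ^ (n + 1)) := by
    rw [map_mul, hm, one_mul, map_pow]
    exact pow_lt_pow_right₀ hx (Nat.lt_succ_self n)
  rw [h1, Valuation.map_add_eq_of_lt_left v (h2.trans_lt h3), map_mul, hm, one_mul, map_pow]
  exact one_lt_pow₀ hx (Nat.succ_ne_zero n)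

/-- The value of a polynomial of degree at most `k` divided by `x ^ k`. -/
theorem val_eval_div {p : L[X]} {k : ℕ} (hk : p.natDegree ≤ k) (hp : ∀ i, v (p.coeff i) ≤ 1)
    {x : L} (hx : 1 ≤ v x) : v (p.eval x / x ^ k) ≤ 1 := by
  have hv0 : 0 < v x := zero_lt_one.trans_le hx
  rw [map_div₀, map_pow, eval_eq_sum_range]
  refine div_le_one_of_le₀ ?_ zero_le
  refine Valuation.map_sum_le v fun i hi => ?_
  rw [map_mul, map_pow]
  calc v (p.coeff i) * v x ^ i ≤ 1 * v x ^ i := mul_le_mul_left (hp i) _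
    _ = v x ^ i := one_mul _
    _ ≤ v x ^ k := by
      refine pow_le_pow_right₀ hx ?_
      rw [Finset.mem_range] at hi
      omega

/-- The value of a polynomial at a zero, if the constant coefficient is a unit. -/
theorem val_eval_unit {p : L[X]} (hp : ∀ i, v (p.coeff i) ≤ 1) (h0 : v (p.coeff 0) = 1)
    {x : L} (hx : v x < 1) : v (p.eval x) = 1 := by
  have h1 : p.eval x = p.coeff 0 + x * p.divX.eval x := by
    conv_lhs => rw [← divX_mul_X_add p]
    rw [eval_add, eval_mul, eval_X, eval_C]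
    ring
  have h2 : v (x * p.divX.eval x) < 1 := by
    rw [map_mul]
    exact mul_lt_one_of_lt_of_le hx (val_eval_le v (fun i => by rw [coeff_divX]; exact hp _)
      hx.le)
  rw [h1, Valuation.map_add_eq_of_lt_left v (by rw [h0]; exact h2), h0]

/-- A special point is a unit. -/
theorem val_special {D P Q A B : L[X]} {k : ℕ} (hPQ : P ^ 2 - D * Q ^ 2 = 1)
    (hAB : A ^ 2 - D * B ^ 2 = X ^ (2 * k)) (hk : 0 < k) (hA : A.natDegree ≤ k)
    (hm : v (C 2 * P).leadingCoeff = 1) (hdeg : 0 < P.natDegree) (hPint : ∀ i, v ((C 2 * P).coeff i) ≤ 1)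
    (hAint : ∀ i, v ((C 2 * A).coeff i) ≤ 1) (hA0 : v ((C 2 * A).coeff 0) = 1) {b y : L}
    (hb0 : b ≠ 0) (hy : y ^ 2 = D.eval b) {p q : ℤ} (hp : p ≠ 0) (hq : q ≠ 0) {N : ℕ}
    (hN : N ≠ 0)
    (hζ : ((P.eval b + Q.eval b * y) ^ p * ((A.eval b + B.eval b * y) / b ^ k) ^ q) ^ N = 1) :
    v b = 1 := by
  have h1 := congrArg (Polynomial.eval b) hPQ
  have h2 := congrArg (Polynomial.eval b) hAB
  simp only [eval_sub, eval_mul, eval_pow, eval_X, eval_one] at h1 h2
  rw [← hy] at h1 h2
  have hbk : b ^ k ≠ 0 := pow_ne_zero k hb0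
  set z₁ := P.eval b + Q.eval b * y with hz₁
  set z₂ := (A.eval b + B.eval b * y) / b ^ k with hz₂
  have hz₁0 : z₁ ≠ 0 := by
    intro h3
    refine one_ne_zero (α := L) ?_
    rw [← h1]
    linear_combination (P.eval b - Q.eval b * y) * h3
  have hz₂0 : z₂ ≠ 0 := by
    refine div_ne_zero (fun h3 => ?_) hbk
    refine pow_ne_zero (2 * k) hb0 ?_
    rw [← h2]
    linear_combination (A.eval b - B.eval b * y) * h3
  have e1 : z₁ ^ 2 + 1 = (C 2 * P).eval b * z₁ := by
    rw [eval_mul, eval_C, hz₁]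
    linear_combination -h1
  have e2 : z₂ ^ 2 + 1 = ((C 2 * A).eval b / b ^ k) * z₂ := by
    have h3 : (b ^ k) ^ 2 = b ^ (2 * k) := by
      rw [← pow_mul]
      congr 1
      ring
    rw [← h3] at h2
    rw [eval_mul, eval_C, hz₂]
    field_simp
    linear_combination -h2
  have hv := congrArg v hζ
  rw [map_pow, map_mul, map_zpow₀, map_zpow₀, map_one] at hv
  have hpow : ∀ (w : Γ₀), w ≠ 0 → ∀ (n : ℤ), n ≠ 0 → (w ^ n) ^ N = 1 → w = 1 := by
    intro w hw n hn h3
    rw [← zpow_natCast, ← zpow_mul] at h3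
    have h4 : n * (N : ℤ) ≠ 0 := mul_ne_zero hn (by exact_mod_cast hN)
    by_contra h5
    exact absurd h3 (by
      rcases lt_or_gt_of_ne h5 with h6 | h6
      · rcases lt_or_gt_of_ne h4 with h7 | h7
        · exact (one_lt_zpow_of_neg₀ (zero_lt_iff.2 hw) h6 h7).ne'
        · exact (zpow_lt_one₀ (zero_lt_iff.2 hw) h6 h7).ne
      · rcases lt_or_gt_of_ne h4 with h7 | h7
        · exact (zpow_lt_one_of_neg₀ h6 h7).ne
        · exact (one_lt_zpow₀ h6 h7).ne')
  rcases lt_trichotomy (v b) 1 with h | h | h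
  · exfalso
    have f1 : v z₁ = 1 := val_eq_one v hz₁0 (val_eval_le v hPint h.le) e1
    have f2 : v z₂ ≠ 1 := by
      refine val_ne_one v ?_ e2
      rw [map_div₀, val_eval_unit v hAint hA0 h, map_pow, one_div]
      refine (one_lt_inv₀ ?_).2 (pow_lt_one₀ zero_le h hk.ne')
      exact pow_pos (zero_lt_iff.2 ((Valuation.ne_zero_iff v).2 hb0)) k
    rw [f1, one_zpow, one_mul] at hv
    exact f2 (hpow _ ((Valuation.ne_zero_iff v).2 hz₂0) q hq hv)
  · exact h
  · exfalso
    have f1 : v z₂ = 1 := by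
      refine val_eq_one v hz₂0 (val_eval_div v ?_ hAint h.le) e2
      exact (natDegree_C_mul_le _ _).trans hA
    have f2 : v z₁ ≠ 1 := by
      refine val_ne_one v (val_eval_lead v hm ?_ hPint h) e1
      have h3 : (C 2 * P).natDegree = P.natDegree := by
        have h4 : (2 : L) ≠ 0 := by
          intro h5
          rw [h5, C_0, zero_mul, leadingCoeff_zero, map_zero] at hm
          exact zero_ne_one hm
        exact natDegree_C_mul h4
      rw [h3]
      exact hdeg
    rw [f1, one_zpow, mul_one] at hv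
    exact f2 (hpow _ ((Valuation.ne_zero_iff v).2 hz₁0) p hp hv)

end Val

/-- An element that belongs to all valuation rings is integral. -/
theorem isIntegral_of_forall {F : Type*} [Field F] {x : F} (h : ∀ V : ValuationSubring F, x ∈ V) :
    IsIntegral ℤ x := by
  have h1 := iInf_valuationSubring_superset (K := F) (s := ∅)
  have h2 : x ∈ (integralClosure (Subring.closure (∅ : Set F)) F).toSubring := by
    rw [← h1]
    rw [Subring.mem_iInf]
    exact fun V => h V.1
  have h3 : IsIntegral (Subring.closure (∅ : Set F)) x := h2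
  have h4 : Algebra.IsIntegral ℤ (Subring.closure (∅ : Set F)) := by
    refine ⟨fun y => ?_⟩
    obtain ⟨y, hy⟩ := y
    rw [Subring.closure_empty] at hy
    obtain ⟨n, rfl⟩ := Subring.mem_bot.1 hy
    have h5 : (⟨(n : F), by rw [Subring.closure_empty]; exact hy⟩ :
        Subring.closure (∅ : Set F)) = algebraMap ℤ _ n := by
      refine Subtype.ext ?_
      simp
    rw [h5]
    exact isIntegral_algebraMap
  exact isIntegral_trans (R := ℤ) (A := Subring.closure (∅ : Set F)) x h3

theorem mem_of_isIntegral {F : Type*} [Field F] (V : ValuationSubring F) {x : F}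
    (h : IsIntegral ℤ x) : V.valuation x ≤ 1 := by
  rw [ValuationSubring.valuation_le_one_iff]
  have h1 : IsIntegral V x := h.tower_top
  obtain ⟨y, hy⟩ := IsIntegrallyClosed.isIntegral_iff.1 h1
  rw [← hy]
  exact y.2

/-- the solutions of monic quadratic equations are integral -/
theorem isIntegral_quad {R S : Type*} [CommRing R] [CommRing S] [Algebra R S] {a b x : S}
    (ha : IsIntegral R a) (hb : IsIntegral R b) (h : x ^ 2 - a * x + b = 0) : IsIntegral R x := by
  let a' : integralClosure R S := ⟨a, ha⟩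
  let b' : integralClosure R S := ⟨b, hb⟩
  have h1 : IsIntegral (integralClosure R S) x := by
    refine ⟨X ^ 2 - C a' * X + C b', by monicity!, ?_⟩
    rw [eval₂_add, eval₂_sub, eval₂_mul, eval₂_pow, eval₂_X, eval₂_C, eval₂_C]
    exact h
  exact isIntegral_trans x h1

end Pool.Agent.T9h73.TN
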