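import Pool.Agent.T9h73.TN.Hyp
import Pool.Agent.T9h73.TP.Def
import Pool.Agent.Y94.R.Lp
import Pool.Agent.TH826.MK.Torus
set_option autoImplicit false

/-!
The notions of the statement.
-/

namespace Pool.Agent.T9h73.TN

open Polynomial

open Pool.Agent.TH826.MK (KQ symb Torus Unramified)

open Pool.Agent.Y94.R (Lp HRing HOpen hpol hy toH hcst)

open Pool.Agent.T9h73.TP (sy)

/-- The period vectors `(∫ x^j dx / y)_{j < g}` of the loops in the curve `y² = D(x)` are linearly
independent over `ℝ`, and the loops avoid the points with `x = 0`. -/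
def GoodLoops (g : ℕ) {D : ℂ[X]} {m : ℕ} (γ : Fin m → Lp D) : Prop :=
  (LinearIndependent ℝ fun (l : Fin m) (j : Fin g) =>
    ∫ t in (0 : ℝ)..1, (γ l).x t ^ (j : ℕ) * deriv (γ l).x t / (γ l).y t) ∧
  ∀ l t, (γ l).x t ≠ 0

/-- The complex points of the curve `y² = D(x)` over all embeddings of the field are smooth: the
partial derivatives `2 y` and `- D'(x)` of `y² - D(x)` do not vanish simultaneously. -/
def SmoothCurve {L : Type*} [Field L] (D : L[X]) : Prop :=
  ∀ (τ : L →+* ℂ) (x y : ℂ), y ^ 2 = D.eval₂ τ x → 2 * y ≠ 0 ∨ (derivative D).eval₂ τ x ≠ 0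

section

variable {L : Type*} [Field L] {D P Q A B : L[X]} {k m : ℕ} (hPQ : P ^ 2 - D * Q ^ 2 = 1)
  (hAB : A ^ 2 - D * B ^ 2 = X ^ (2 * k)) (b : Fin (m + 2) → L) (h0 : b 0 = 0)
  (p q : Fin m → ℤ)

/-- The element
`S_i = p_i {z₁, h_i} + q_i {z₂, h_i / h_i(0)}`, `h_i = (x - b_(i+2)) / (x - b_1)`. -/
noncomputable def Sym (i : Fin m) : KQ (HOpen D b) 2 :=
  sy b hPQ hAB h0 (p i) (q i) i.succ.succ 1

/-- The elements `S_i` are unramified at all discrete valuations of the function field `M` of the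
curve. -/
def UnramifiedSymbols.{w} : Prop :=
  ∀ (M : Type w) [Field M] [Algebra (HRing D) M] [IsFractionRing (HRing D) M],
    ∃ f : HOpen D b →+* M, (∀ a : HRing D, f (toH D b a) = algebraMap (HRing D) M a) ∧
      ∀ i : Fin m, KQ.map 2 f (Sym hPQ hAB b h0 p q i) ∈ Unramified M 2

/-- The loops `(x_l, y_l)` are loops of complex points of the open curve over the embedding `s`, and
the vectors `(reg_l S_i)_l` of the regulators of the `S_i` on them are linearly independent over
`ℝ`. -/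
def IndependentRegulators (s : L →+* ℂ) (x y : Fin m → ℝ → ℂ) : Prop :=
  ∃ Γ : Fin m → Torus (HOpen D b) 1,
    (∀ l θ, (∀ c : L, (Γ l).e θ (hcst D b c) = s c) ∧
      (Γ l).e θ (toH D b (hpol D X)) = x l (θ 0) ∧ (Γ l).e θ (toH D b (hy D)) = y l (θ 0)) ∧
    LinearIndependent ℝ fun (i : Fin m) (l : Fin m) => (Γ l).reg (Sym hPQ hAB b h0 p q i)

end

end Pool.Agent.T9h73.TN
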